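import Pool.Agent.H51.EP.SynStm

/-! Part SY1: derivations in the language with constants are translated. -/

set_option autoImplicit false

universe u

namespace Pool.Agent.H51.EP

variable {C : Type u}

/-- the shift -/
def shT {n : ℕ} (t : K.Tm n) : K.Tm (n + 1) := t.subst (fun l => .var l.succ)

theorem trT_subst {n m k : ℕ} (ρ : C → K.Tm k) (σ : Fin m → K.Tm k) (τ : Fin n → Syn.Tm C m)
    (t : Syn.Tm C n) : trT ρ σ (t.subst τ) = trT ρ (fun i => trT ρ σ (τ i)) t := by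
  induction t with
  | var i => rfl
  | cst c => rfl
  | zero => rfl
  | succ t ih => simp only [Syn.Tm.subst, trT, ih]
  | add t s iht ihs => simp only [Syn.Tm.subst, trT, iht, ihs]
  | mul t s iht ihs => simp only [Syn.Tm.subst, trT, iht, ihs]

theorem subst_trT {n k l : ℕ} (ρ : C → K.Tm k) (σ : Fin n → K.Tm k) (τ : Fin k → K.Tm l)
    (t : Syn.Tm C n) :
    (trT ρ σ t).subst τ = trT (fun c => (ρ c).subst τ) (fun i => (σ i).subst τ) t := by
  induction t with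
  | var i => rfl
  | cst c => rfl
  | zero => rfl
  | succ t ih => simp only [trT, Pool.Agent.H872R3.KH.Tm.subst, ih]
  | add t s iht ihs => simp only [trT, Pool.Agent.H872R3.KH.Tm.subst, iht, ihs]
  | mul t s iht ihs => simp only [trT, Pool.Agent.H872R3.KH.Tm.subst, iht, ihs]

theorem up_trT {n m k : ℕ} (ρ : C → K.Tm k) (σ : Fin m → K.Tm k) (τ : Fin n → Syn.Tm C m) :
    (fun i => trT (shρ ρ) (K.up σ) (Syn.up τ i)) = K.up (fun i => trT ρ σ (τ i)) := by
  funext i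
  refine Fin.cases rfl (fun j => ?_) i
  show trT (shρ ρ) (K.up σ) ((τ j).subst (fun l => Syn.Tm.var l.succ)) =
    (trT ρ σ (τ j)).subst (fun l => .var l.succ)
  rw [trT_subst, subst_trT]
  rfl

theorem trF_subst {n : ℕ} (φ : Syn.Fm C n) : ∀ {m k : ℕ} (ρ : C → K.Tm k) (σ : Fin m → K.Tm k)
    (τ : Fin n → Syn.Tm C m), trF ρ σ (φ.subst τ) = trF ρ (fun i => trT ρ σ (τ i)) φ := by
  induction φ with
  | bot => intro m k ρ σ τ; rfl
  | eq t s => intro m k ρ σ τ; simp only [Syn.Fm.subst, trF, trT_subst]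
  | and φ ψ ihφ ihψ => intro m k ρ σ τ; simp only [Syn.Fm.subst, trF, ihφ, ihψ]
  | or φ ψ ihφ ihψ => intro m k ρ σ τ; simp only [Syn.Fm.subst, trF, ihφ, ihψ]
  | imp φ ψ ihφ ihψ => intro m k ρ σ τ; simp only [Syn.Fm.subst, trF, ihφ, ihψ]
  | all φ ih => intro m k ρ σ τ; simp only [Syn.Fm.subst, trF, ih, up_trT]
  | ex φ ih => intro m k ρ σ τ; simp only [Syn.Fm.subst, trF, ih, up_trT]

theorem shρ_up {k l : ℕ} (ρ : C → K.Tm k) (τ : Fin k → K.Tm l) :
    (fun c => (shρ ρ c).subst (K.up τ)) = shρ (fun c => (ρ c).subst τ) := by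
  funext c
  show ((ρ c).subst (fun l => Pool.Agent.H872R3.KH.Tm.var l.succ)).subst (K.up τ) =
    ((ρ c).subst τ).subst (fun l => .var l.succ)
  rw [Pool.Agent.H872R3.KH.Tm.subst_comp, Pool.Agent.H872R3.KH.Tm.subst_comp]
  rfl

theorem subst_trF {n : ℕ} (φ : Syn.Fm C n) : ∀ {k l : ℕ} (ρ : C → K.Tm k) (σ : Fin n → K.Tm k)
    (τ : Fin k → K.Tm l),
    (trF ρ σ φ).subst τ = trF (fun c => (ρ c).subst τ) (fun i => (σ i).subst τ) φ := by
  induction φ with
  | bot => intro k l ρ σ τ; rfl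
  | eq t s =>
    intro k l ρ σ τ; simp only [trF, Pool.Agent.H872R3.KH.Fm.subst, subst_trT]
  | and φ ψ ihφ ihψ =>
    intro k l ρ σ τ; simp only [trF, Pool.Agent.H872R3.KH.Fm.subst, ihφ, ihψ]
  | or φ ψ ihφ ihψ =>
    intro k l ρ σ τ; simp only [trF, Pool.Agent.H872R3.KH.Fm.subst, ihφ, ihψ]
  | imp φ ψ ihφ ihψ =>
    intro k l ρ σ τ; simp only [trF, Pool.Agent.H872R3.KH.Fm.subst, ihφ, ihψ]
  | all φ ih =>
    intro k l ρ σ τ
    simp only [trF, Pool.Agent.H872R3.KH.Fm.subst, ih]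
    rw [shρ_up, Pool.Agent.H872R3.KH.up_comp]
  | ex φ ih =>
    intro k l ρ σ τ
    simp only [trF, Pool.Agent.H872R3.KH.Fm.subst, ih]
    rw [shρ_up, Pool.Agent.H872R3.KH.up_comp]

theorem trF_sh {n k : ℕ} (ρ : C → K.Tm k) (σ : Fin n → K.Tm k) (φ : Syn.Fm C n) :
    trF (shρ ρ) (K.up σ) φ.sh = (trF ρ σ φ).sh := by
  unfold Syn.Fm.sh Pool.Agent.H872R3.KH.Fm.sh
  rw [trF_subst, subst_trF]
  rfl

theorem trF_inst {n k : ℕ} (ρ : C → K.Tm k) (σ : Fin n → K.Tm k) (φ : Syn.Fm C (n + 1))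
    (t : Syn.Tm C n) : trF ρ σ (φ.inst t) = (trF (shρ ρ) (K.up σ) φ).inst (trT ρ σ t) := by
  unfold Syn.Fm.inst Pool.Agent.H872R3.KH.Fm.inst
  rw [trF_subst, subst_trF]
  congr 1
  · funext c
    show ρ c = ((ρ c).subst (fun l => Pool.Agent.H872R3.KH.Tm.var l.succ)).subst _
    rw [Pool.Agent.H872R3.KH.Tm.subst_comp]
    exact (Pool.Agent.H872R3.KH.Tm.subst_id _).symm
  · funext i
    refine Fin.cases rfl (fun j => ?_) i
    show σ j = ((σ j).subst (fun l => Pool.Agent.H872R3.KH.Tm.var l.succ)).subst _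
    rw [Pool.Agent.H872R3.KH.Tm.subst_comp]
    exact (Pool.Agent.H872R3.KH.Tm.subst_id _).symm

theorem trF_atZero {n k : ℕ} (ρ : C → K.Tm k) (σ : Fin n → K.Tm k) (φ : Syn.Fm C (n + 1)) :
    trF ρ σ (Syn.atZero φ) = Pool.Agent.H872R3.KH.atZero (trF (shρ ρ) (K.up σ) φ) :=
  trF_inst ρ σ φ .zero

theorem trF_atSucc {n k : ℕ} (ρ : C → K.Tm k) (σ : Fin n → K.Tm k) (φ : Syn.Fm C (n + 1)) :
    trF (shρ ρ) (K.up σ) (Syn.atSucc φ) =
      Pool.Agent.H872R3.KH.atSucc (trF (shρ ρ) (K.up σ) φ) := by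
  unfold Syn.atSucc Pool.Agent.H872R3.KH.atSucc
  rw [trF_subst, subst_trF]
  congr 1
  · funext c
    show shρ ρ c = ((ρ c).subst (fun l => Pool.Agent.H872R3.KH.Tm.var l.succ)).subst _
    rw [Pool.Agent.H872R3.KH.Tm.subst_comp]
    rfl
  · funext i
    refine Fin.cases rfl (fun j => ?_) i
    show (σ j).subst (fun l => Pool.Agent.H872R3.KH.Tm.var l.succ) =
      ((σ j).subst (fun l => Pool.Agent.H872R3.KH.Tm.var l.succ)).subst _
    rw [Pool.Agent.H872R3.KH.Tm.subst_comp]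
    rfl

/-- translations of substitution instances are substitution instances of one formula -/
theorem trF_repl {n m k : ℕ} (ρ : C → K.Tm k) (σ : Fin n → K.Tm k) (τ : Fin m → Syn.Tm C n)
    (φ : Syn.Fm C m) : trF ρ σ (φ.subst τ) =
      (trF (fun c => (ρ c).subst (fun j => .var (Fin.natAdd m j)))
        (fun i => Pool.Agent.H872R3.KH.Tm.var (Fin.castAdd k i)) φ).subst
        (Fin.addCases (fun i => trT ρ σ (τ i)) (fun j => .var j)) := by
  rw [trF_subst, subst_trF]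
  congr 1
  · funext c
    rw [Pool.Agent.H872R3.KH.Tm.subst_comp]
    conv_lhs => rw [← Pool.Agent.H872R3.KH.Tm.subst_id (ρ c)]
    congr 1
    funext j
    simp [Pool.Agent.H872R3.KH.Tm.subst]
  · funext i
    simp [Pool.Agent.H872R3.KH.Tm.subst]

/-- part SY1 -/
theorem SY1 : S_SY1.{u} := by
  intro C n Γ φ h
  have hsh : ∀ {n k : ℕ} (Γ : List (Syn.Fm C n)) (ρ : C → K.Tm k) (σ : Fin n → K.Tm k),
      (Γ.map Syn.Fm.sh).map (trF (shρ ρ) (K.up σ)) =
        (Γ.map (trF ρ σ)).map Pool.Agent.H872R3.KH.Fm.sh := by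
    intro n k Γ ρ σ
    rw [List.map_map, List.map_map]
    refine List.map_congr_left fun γ _ => ?_
    exact trF_sh ρ σ γ
  induction h with
  | hyp h => intro k ρ σ; exact .hyp (List.mem_map_of_mem h)
  | botE _ ih => intro k ρ σ; exact .botE (ih k ρ σ)
  | andI _ _ ih1 ih2 => intro k ρ σ; exact .andI (ih1 k ρ σ) (ih2 k ρ σ)
  | andE₁ _ ih => intro k ρ σ; exact .andE₁ (ih k ρ σ)
  | andE₂ _ ih => intro k ρ σ; exact .andE₂ (ih k ρ σ)
  | orI₁ _ ih => intro k ρ σ; exact .orI₁ (ih k ρ σ)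
  | orI₂ _ ih => intro k ρ σ; exact .orI₂ (ih k ρ σ)
  | orE _ _ _ ih1 ih2 ih3 =>
    intro k ρ σ; exact .orE (ih1 k ρ σ) (ih2 k ρ σ) (ih3 k ρ σ)
  | impI _ ih => intro k ρ σ; exact .impI (ih k ρ σ)
  | impE _ _ ih1 ih2 => intro k ρ σ; exact .impE (ih1 k ρ σ) (ih2 k ρ σ)
  | allI _ ih =>
    intro k ρ σ
    refine .allI ?_
    have := ih (k + 1) (shρ ρ) (K.up σ)
    rwa [hsh] at this
  | allE t _ ih =>
    intro k ρ σ
    rw [trF_inst]
    exact .allE _ (ih k ρ σ)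
  | exI t _ ih =>
    intro k ρ σ
    refine .exI (trT ρ σ t) ?_
    have := ih k ρ σ
    rwa [trF_inst] at this
  | exE _ _ ih1 ih2 =>
    intro k ρ σ
    refine .exE (ih1 k ρ σ) ?_
    have := ih2 (k + 1) (shρ ρ) (K.up σ)
    rw [List.map_cons, hsh, trF_sh] at this
    exact this
  | refl t => intro k ρ σ; exact .refl _
  | repl φ σ₁ τ₁ _ _ ih1 ih2 =>
    intro k ρ σ
    have h2 := ih2 k ρ σ
    rw [trF_repl] at h2 ⊢
    refine .repl _ _ _ (fun i => ?_) h2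
    refine Fin.addCases (fun i => ?_) (fun j => ?_) i
    · rw [Fin.addCases_left, Fin.addCases_left]
      exact ih1 i k ρ σ
    · rw [Fin.addCases_right, Fin.addCases_right]
      exact .refl _

end Pool.Agent.H51.EP
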