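import Pool.Agent.H44.EP.SY1

/-! Part SY2: the translated axioms are forced in Kripke models of Heyting arithmetic. -/

set_option autoImplicit false

universe u

namespace Pool.Agent.H51.EP

open Pool.Agent.H872R3.KH (cns)

/-- instances of a forced universal closure are forced -/
theorem forces_of_closure (W : K.KModel) : ∀ (n : ℕ) (χ : K.Fm n) (k : W.K),
    W.Forces (K.closure n χ) k (fun i => i.elim0) → ∀ (v : Fin n → W.dom k), W.Forces χ k v := by
  intro n
  induction n with
  | zero =>
    intro χ k h v
    have : v = fun i => i.elim0 := funext fun i => i.elim0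
    rw [this]
    exact h
  | succ n ih =>
    intro χ k h v
    have h1 := ih (.all χ) k h (fun i => v i.succ) k le_rfl (v 0)
    have h2 : (cns (v 0) (fun i => Set.inclusion (W.dom_mono (le_refl k)) (v i.succ)) :
        Fin (n + 1) → W.dom k) = v := by
      funext i
      refine Fin.cases rfl (fun j => ?_) i
      rfl
    rw [h2] at h1
    exact h1

/-- all instances of the formula are forced -/
def GoodF {C : Type u} (W : K.KModel) {n : ℕ} (χ : Syn.Fm C n) : Prop :=
  ∀ (m : ℕ) (ρ : C → K.Tm m) (σ : Fin n → K.Tm m) (k : W.K) (v : Fin m → W.dom k),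
    W.Forces (trF ρ σ χ) k v

theorem GoodF.all {C : Type u} {W : K.KModel} {n : ℕ} {χ : Syn.Fm C (n + 1)} (h : GoodF W χ) :
    GoodF W (.all χ) := by
  intro m ρ σ k v l hl a
  exact h (m + 1) (shρ ρ) (K.up σ) l _

theorem GoodF.closure {C : Type u} {W : K.KModel} : ∀ {n : ℕ} {χ : Syn.Fm C n}, GoodF W χ →
    GoodF W (Syn.closure n χ) := by
  intro n
  induction n with
  | zero => intro χ h; exact h
  | succ n ih => intro χ h; exact ih h.all

/-- part SY2 -/
theorem SY2 : S_SY2.{u} := by
  intro C α hα W hW m ρ k v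
  -- the axioms without parameters
  have key : ∀ β : K.Fm 0, K.Ax β → W.Forces (β.subst (nov : Fin 0 → K.Tm m)) k v := by
    intro β hβ
    rw [W.forces_subst]
    have := hW k β hβ
    have h2 : (fun i => ((nov : Fin 0 → K.Tm m) i).ev (W.str k) v) = fun i => i.elim0 :=
      funext fun i => i.elim0
    rw [h2]
    exact this
  cases hα with
  | succ_ne => exact key _ .succ_ne
  | succ_inj => exact key _ .succ_inj
  | add_zero => exact key _ .add_zero
  | add_succ => exact key _ .add_succ
  | mul_zero => exact key _ .mul_zero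
  | mul_succ => exact key _ .mul_succ
  | ind n φ =>
    have hg : GoodF W (.imp (.and (Syn.atZero φ) (.all (.imp φ (Syn.atSucc φ)))) (.all φ)) := by
      intro m ρ σ k v
      have h1 := forces_of_closure W m _ k (hW k _ (.ind m (trF (shρ ρ) (K.up σ) φ))) v
      have h2 : trF ρ σ (.imp (.and (Syn.atZero φ) (.all (.imp φ (Syn.atSucc φ)))) (.all φ)) =
          .imp (.and (Pool.Agent.H872R3.KH.atZero (trF (shρ ρ) (K.up σ) φ))
            (.all (.imp (trF (shρ ρ) (K.up σ) φ)
              (Pool.Agent.H872R3.KH.atSucc (trF (shρ ρ) (K.up σ) φ)))))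
            (.all (trF (shρ ρ) (K.up σ) φ)) := by
        show (.imp (.and (trF ρ σ (Syn.atZero φ)) (.all (.imp _
          (trF (shρ ρ) (K.up σ) (Syn.atSucc φ))))) _ : K.Fm m) = _
        rw [trF_atZero, trF_atSucc]
        rfl
      rw [h2]
      exact h1
    exact hg.closure m ρ nov k v

end Pool.Agent.H51.EP
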