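import Pool.Agent.H44.EP.SY2

/-! Part SYD: the hypotheses from the diagram are moved into the matrix. -/

set_option autoImplicit false

universe u

namespace Pool.Agent.H51.EP

open Pool.Agent.H872R3.KH (cns)

/-- a universal closure is forced at all nodes if all instances are forced -/
theorem forces_closure_of (W : K.KModel) : ∀ (n : ℕ) (χ : K.Fm n),
    (∀ (k : W.K) (v : Fin n → W.dom k), W.Forces χ k v) → ∀ k : W.K,
    W.Forces (K.closure n χ) k (fun i => i.elim0) := by
  intro n
  induction n with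
  | zero => intro χ h k; exact h k _
  | succ n ih =>
    intro χ h k
    exact ih (.all χ) (fun l v m hm a => h m _) k

/-- forcing of a conjunction -/
theorem forces_conj (W : K.KModel) {m : ℕ} (L : List (K.Fm m)) (k : W.K) (v : Fin m → W.dom k) :
    W.Forces (conj L) k v ↔ ∀ γ ∈ L, W.Forces γ k v := by
  induction L with
  | nil =>
    simp only [conj, List.not_mem_nil, false_imp_iff, implies_true, iff_true]
    rfl
  | cons γ L ih =>
    rw [List.forall_mem_cons, ← ih]
    rfl

/-- part SYD -/
theorem SYD (h1 : S_SY1.{u}) (h2 : S_SY2.{u}) (hU : S_UNI) (hI : S_INC) : S_SYD.{u} := by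
  classical
  obtain ⟨W, hWU⟩ := hU
  intro C L hL φ hφ
  refine ⟨L.filter (fun α => IsLit α), fun α hα => by simpa using hα, fun m ρ => ?_⟩
  refine (hWU _).1 fun k => ?_
  refine forces_closure_of W.W m _ (fun k v => ?_) k
  -- literals which are not forced are not forced later
  have hlit : ∀ α : Syn.Fm C 0, IsLit α → ¬ W.W.Forces (trF ρ nov α) k v →
      ∀ (l : W.W.K) (h : k ≤ l), ¬ W.W.Forces (trF ρ nov α) l (W.W.mv h v) := by
    rintro α ⟨t, s, rfl | rfl⟩ hn l h hf
    · apply hn
      have hf' : (trT ρ nov t).ev (W.W.str l) (W.W.mv h v) =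
        (trT ρ nov s).ev (W.W.str l) (W.W.mv h v) := hf
      rw [W.W.ev_mv, W.W.ev_mv] at hf'
      exact (hI W k l h).1 hf'
    · apply hn
      intro l' h' he
      have he' : (trT ρ nov t).ev (W.W.str l') (W.W.mv h' v) =
        (trT ρ nov s).ev (W.W.str l') (W.W.mv h' v) := he
      rw [W.W.ev_mv, W.W.ev_mv] at he'
      have he2 : (trT ρ nov t).ev (W.W.str k) v = (trT ρ nov s).ev (W.W.str k) v :=
        (hI W k l' h').1 he'
      have he3 : (trT ρ nov t).ev (W.W.str l) (W.W.mv h v) =
        (trT ρ nov s).ev (W.W.str l) (W.W.mv h v) := by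
        rw [W.W.ev_mv, W.W.ev_mv, he2]
      exact hf l le_rfl he3
  by_cases hall : ∀ α ∈ L, IsLit α → W.W.Forces (trF ρ nov α) k v
  · -- all literals are forced
    have h3 : W.W.Forces (trF ρ nov (.ex φ)) k v := by
      refine W.W.sound (h1 C 0 L (.ex φ) hφ m ρ nov) k v fun γ hγ => ?_
      obtain ⟨α, hα, rfl⟩ := List.mem_map.1 hγ
      rcases hL α hα with h | h
      · exact h2 C α h W.W W.ha m ρ k v
      · exact hall α hα h
    obtain ⟨a, ha⟩ := h3
    refine ⟨a, fun l hl _ => ?_⟩
    exact W.W.forces_mono _ hl _ ha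
  · push Not at hall
    obtain ⟨α, hα, hα1, hα2⟩ := hall
    refine ⟨(W.W.str k).zero, fun l hl hc => ?_⟩
    exfalso
    have hc' : W.W.Forces (conj ((L.filter (fun α => IsLit α)).map (trF ρ nov))).sh l
        (W.W.mv hl (cns (W.W.str k).zero v)) := hc
    rw [W.W.mv_cns, W.W.forces_sh, forces_conj] at hc'
    refine hlit α hα1 hα2 l hl (hc' _ (List.mem_map_of_mem ?_))
    simp [hα, hα1]

end Pool.Agent.H51.EP
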